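import Mathlib
import Pool.Agent.Y734.I.StmsH
import Pool.Agent.Y734.I.QAlg

/-!
# Project Y734/I, job CON: the algebra of the conic case
-/

set_option autoImplicit false

namespace Pool.Agent.Y328.Cnc

open Pool.Agent.Y734.I

lemma coef (hdet : DetStmt) (a1 a2 a3 : ℤ) (h12 : a1 < a2) (h23 : a2 < a3)
    (N : ℤ → Matrix (Fin 3) (Fin 3) ℚ)
    (hN : ∀ z : ℚ, z ≠ 0 → (∑ w ∈ ({a1, a2, a3} : Finset ℤ), z ^ w • N w).det = 0)
    (m1 m3 n1 n3 p q m u v y : ℚ) (hm1 : m1 ≠ 0) (hm3 : m3 ≠ 0) (hn1 : n1 ≠ 0) (hn3 : n3 ≠ 0)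
    (hG1 : N a1 = !![0, 0, 0; 0, 2 * m1, 0; 0, 0, -2 * n1 ^ 2 * m1])
    (hG2 : N a2 = !![p, m, u; m, q, v; u, v, y])
    (hG3 : N a3 = !![2 * m3, 0, 0; 0, 0, 0; 0, 0, -2 * n3 ^ 2 * m3]) :
    p = 0 ∧ q = 0 ∧ u ^ 2 = n1 ^ 2 * (m ^ 2 - 4 * m1 * m3) ∧
      v ^ 2 = n3 ^ 2 * (m ^ 2 - 4 * m1 * m3) ∧ y * (m ^ 2 - 4 * m1 * m3) = 2 * m * u * v := by
  have hsum : ∀ F : ℤ → ℚ, ∑ w ∈ ({a1, a2, a3} : Finset ℤ), F w = F a1 + (F a2 + F a3) := by
    intro F
    rw [Finset.sum_insert (by simp; omega), Finset.sum_insert (by simp; omega),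
      Finset.sum_singleton]
  have key := hdet {a1, a2, a3} N hN
  simp only [hsum] at key
  have d3 : ∀ A B C : Matrix (Fin 3) (Fin 3) ℚ, D3 A B C =
      A 0 0 * (B 1 1 * C 2 2 - B 1 2 * C 2 1) - A 0 1 * (B 1 0 * C 2 2 - B 1 2 * C 2 0) +
        A 0 2 * (B 1 0 * C 2 1 - B 1 1 * C 2 0) := by
    intro A B C
    unfold D3
    rw [Matrix.det_fin_three]
    simp
    ring
  -- first diagonal entry
  have hp : p = 0 := by
    have k := key (2 * a1 + a2)
    simp (disch := omega) only [if_pos, if_neg] at k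
    simp [d3, hG1, hG2] at k
    tauto
  have hq : q = 0 := by
    have k := key (2 * a3 + a2)
    simp (disch := omega) only [if_pos, if_neg] at k
    simp [d3, hG3, hG2] at k
    tauto
  have h2 : 2 * a2 = a1 + a3 := by
    by_contra hne
    have e1 : 3 * a2 = 2 * a1 + a3 := by
      by_contra hne1
      have k := key (2 * a1 + a3)
      simp (disch := omega) only [if_pos, if_neg] at k
      simp [d3, hG1, hG3] at k
      tauto
    have e2 : 3 * a2 = a1 + 2 * a3 := by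
      by_contra hne1
      have k := key (a1 + 2 * a3)
      simp (disch := omega) only [if_pos, if_neg] at k
      simp [d3, hG1, hG3] at k
      tauto
    omega
  subst hp
  subst hq
  refine ⟨rfl, rfl, ?_, ?_, ?_⟩
  · have k := key (2 * a1 + a3)
    simp (disch := omega) only [if_pos, if_neg] at k
    simp [d3, hG1, hG2, hG3] at k
    have h3 : (2 * m1) * (u ^ 2 - n1 ^ 2 * (m ^ 2 - 4 * m1 * m3)) = 0 := by linear_combination -k
    have h4 := (mul_eq_zero.mp h3).resolve_left (mul_ne_zero two_ne_zero hm1)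
    linarith
  · have k := key (a1 + 2 * a3)
    simp (disch := omega) only [if_pos, if_neg] at k
    simp [d3, hG1, hG2, hG3] at k
    have h3 : (2 * m3) * (v ^ 2 - n3 ^ 2 * (m ^ 2 - 4 * m1 * m3)) = 0 := by linear_combination -k
    have h4 := (mul_eq_zero.mp h3).resolve_left (mul_ne_zero two_ne_zero hm3)
    linarith
  · have k := key (3 * a2)
    simp (disch := omega) only [if_pos, if_neg] at k
    simp [d3, hG1, hG2, hG3] at k
    linear_combination -k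

lemma tzero (m1 m3 n1 n3 m u v y h0 : ℚ) (hm1 : m1 ≠ 0) (hm3 : m3 ≠ 0) (hn1 : n1 ≠ 0)
    (hn3 : n3 ≠ 0) (hu : u ^ 2 = n1 ^ 2 * (m ^ 2 - 4 * m1 * m3))
    (hv : v ^ 2 = n3 ^ 2 * (m ^ 2 - 4 * m1 * m3)) (hy : y * (m ^ 2 - 4 * m1 * m3) = 2 * m * u * v)
    (h : -2 * m * n3 * h0 - 2 * u * n3 + 2 * v * h0 + y = 0) (hp : h0 ≠ n1) (hm : h0 ≠ -n1) :
    m ^ 2 - 4 * m1 * m3 = 0 := by
  by_contra hT
  set T := m ^ 2 - 4 * m1 * m3 with hTdef
  have hv0 : v ≠ 0 := by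
    intro h0
    rw [h0] at hv
    have : n3 ^ 2 * T ≠ 0 := mul_ne_zero (pow_ne_zero 2 hn3) hT
    exact this (by rw [← hv]; ring)
  have hs : (u * v - n1 * n3 * T) * (u * v + n1 * n3 * T) = 0 := by
    linear_combination v ^ 2 * hu + n1 ^ 2 * T * hv
  have main : ∀ σ : ℚ, σ ^ 2 = 1 → u * v = σ * (n1 * n3 * T) → h0 ≠ σ * n1 → False := by
    intro σ hσ huv hne
    have h1 : y = 2 * m * σ * n1 * n3 := by
      have : T * (y - 2 * m * σ * n1 * n3) = 0 := by linear_combination hy + 2 * m * huv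
      have := (mul_eq_zero.mp this).resolve_left hT
      linarith
    have h2 : n3 * u = σ * n1 * v := by
      have : v * (n3 * u - σ * n1 * v) = 0 := by linear_combination n3 * huv - σ * n1 * hv
      have := (mul_eq_zero.mp this).resolve_left hv0
      linarith
    have h3 : (h0 - σ * n1) * (v - m * n3) = 0 := by
      linear_combination (1 / 2) * h + h2 - (1 / 2) * h1
    have h4 := (mul_eq_zero.mp h3).resolve_left (sub_ne_zero.mpr hne)
    have h5 : v = m * n3 := by linarith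
    have h6 : n3 ^ 2 * (4 * m1 * m3) = 0 := by
      rw [h5, hTdef] at hv
      linear_combination hv
    exact mul_ne_zero (pow_ne_zero 2 hn3) (mul_ne_zero (mul_ne_zero four_ne_zero hm1) hm3) h6
  rcases mul_eq_zero.mp hs with h1 | h1
  · exact main 1 (by norm_num) (by linear_combination h1) (by simpa using hp)
  · exact main (-1) (by norm_num) (by linear_combination h1) (by simpa using hm)

lemma onG (m1 m3 n1 n3 m y X1 X3 Xk Y1 Y3 Yk : ℂ) (hm3 : m3 ≠ 0)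
    (hT : m ^ 2 = 4 * m1 * m3) (e1 : X1 * Y1 = m3) (e3 : X3 * Y3 = m1)
    (e13 : X1 * Y3 + X3 * Y1 = m) (e1k : X1 * Yk + Xk * Y1 = 0)
    (ek : 2 * (Xk * Yk) = y - 2 * n1 ^ 2 * m1 - 2 * n3 ^ 2 * m3) :
    m * Xk ^ 2 - m * n1 ^ 2 * X3 ^ 2 + y * (X1 * X3) - m * n3 ^ 2 * X1 ^ 2 = 0 := by
  have h1 : X1 * Y3 = X3 * Y1 := by
    have : (X1 * Y3 - X3 * Y1) ^ 2 = 0 := by
      linear_combination (X1 * Y3 + X3 * Y1 + m) * e13 - 4 * (X3 * Y3) * e1 - 4 * m3 * e3 + hT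
    have := pow_eq_zero_iff (two_ne_zero) |>.mp this
    linear_combination this
  have hY : Y1 ≠ 0 := by
    intro h
    rw [h, mul_zero] at e1
    exact hm3 e1.symm
  have h2 : Y1 * (m * Xk ^ 2 - m * n1 ^ 2 * X3 ^ 2 + y * (X1 * X3) - m * n3 ^ 2 * X1 ^ 2) = 0 := by
    have h3 : X3 * Y1 = m / 2 := by linear_combination (1 / 2) * e13 - (1 / 2) * h1
    have h4 : X1 * Y3 = m / 2 := by linear_combination (1 / 2) * e13 + (1 / 2) * h1
    linear_combination (m * Xk) * e1k - (m * X1 / 2) * ek + (y * X1) * h3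
      - (m * n3 ^ 2 * X1) * e1 - (m * n1 ^ 2 * X3) * h3 + (m * n1 ^ 2 * X3) * h4
      - (m * n1 ^ 2 * X1) * e3
  exact (mul_eq_zero.mp h2).resolve_left hY

end Pool.Agent.Y328.Cnc
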