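import Mathlib
import Pool.Agent.Y328.Cnc.Alg

/-!
# Project Y734/I, job CON: the coordinates of the conic case
-/

set_option autoImplicit false

namespace Pool.Agent.Y328.Cnc

open Pool.Agent.Y734.I MvPolynomial

lemma crs0 (a b : Fin 3 → ℚ) : crs a b 0 = a 1 * b 2 - a 2 * b 1 := rfl
lemma crs1 (a b : Fin 3 → ℚ) : crs a b 1 = a 2 * b 0 - a 0 * b 2 := rfl
lemma crs2 (a b : Fin 3 → ℚ) : crs a b 2 = a 0 * b 1 - a 1 * b 0 := rfl

lemma idA (a b c x : Fin 3 → ℚ) :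
    dt3 (crs (crs b c) x) (crs a b) = dt3 a (crs b c) * dt3 b x := by
  simp only [dt3, crs0, crs1, crs2]; ring

lemma idB (a b c x : Fin 3 → ℚ) :
    dt3 (crs x (crs b c)) (crs a b) = - (dt3 a (crs b c) * dt3 b x) := by
  simp only [dt3, crs0, crs1, crs2]; ring

lemma idD (a b c x : Fin 3 → ℚ) :
    dt3 (crs (crs a b) x) (crs b c) = - (dt3 a (crs b c) * dt3 b x) := by
  simp only [dt3, crs0, crs1, crs2]; ring

lemma idE (a b c x : Fin 3 → ℚ) :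
    dt3 (crs x (crs a b)) (crs b c) = dt3 a (crs b c) * dt3 b x := by
  simp only [dt3, crs0, crs1, crs2]; ring

lemma idF (a b c x : Fin 3 → ℚ) :
    dt3 (crs (crs a b) (crs b c)) x = dt3 a (crs b c) * dt3 b x := by
  simp only [dt3, crs0, crs1, crs2]; ring

lemma idC (a b c d : Fin 3 → ℚ) :
    dt3 (crs a b) (crs (crs b d) (crs a c)) =
      - (dt3 (crs a b) c * dt3 (crs b d) a) := by
  simp only [dt3, crs0, crs1, crs2]; ring

lemma cl (a b : Fin 3 → ℚ) : dt3 (crs a b) a = 0 := by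
  simp only [dt3, crs0, crs1, crs2]; ring

lemma cr (a b : Fin 3 → ℚ) : dt3 (crs a b) b = 0 := by
  simp only [dt3, crs0, crs1, crs2]; ring

lemma expandQ (a b c h : Fin 3 → ℚ) (j : Fin 3) : dt3 a (crs b c) * h j =
    dt3 h (crs b c) * a j + dt3 h (crs c a) * b j + dt3 h (crs a b) * c j := by
  fin_cases j <;> simp only [dt3, crs0, crs1, crs2, Fin.zero_eta, Fin.mk_one, Fin.reduceFinMk] <;>
    ring

/-- the value of a form at a complex point -/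
noncomputable def vc (l : Fin 3 → ℚ) (x : Fin 3 → ℂ) : ℂ :=
  (l 0 : ℂ) * x 0 + (l 1 : ℂ) * x 1 + (l 2 : ℂ) * x 2

lemma ev_eq (l : Fin 3 → ℚ) (x : Fin 3 → ℂ) : ev (N := 2) l x = vc l x := by
  unfold ev vc
  rw [Fin.sum_univ_three]
  simp

lemma expandC (a b c : Fin 3 → ℚ) (x : Fin 3 → ℂ) (j : Fin 3) :
    ((dt3 a (crs b c) : ℚ) : ℂ) * x j =
      ((crs b c j : ℚ) : ℂ) * vc a x + ((crs c a j : ℚ) : ℂ) * vc b x +
        ((crs a b j : ℚ) : ℂ) * vc c x := by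
  fin_cases j <;>
    simp only [dt3, crs0, crs1, crs2, vc, Fin.zero_eta, Fin.mk_one, Fin.reduceFinMk] <;>
    push_cast <;> ring

/-- the value of a symmetric matrix at two forms -/
def bf (M : Matrix (Fin 3) (Fin 3) ℚ) (x y : Fin 3 → ℚ) : ℚ := ∑ j, ∑ k, x j * M j k * y k

lemma qv_bf (h : Fin 3 → ℚ) (M : Matrix (Fin 3) (Fin 3) ℚ) : qv h M = bf M h h := rfl

lemma bf_symm {M : Matrix (Fin 3) (Fin 3) ℚ} (hM : M.IsSymm) (x y : Fin 3 → ℚ) :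
    bf M x y = bf M y x := by
  have h : ∀ i j, M i j = M j i := fun i j => hM.apply j i
  simp only [bf, Fin.sum_univ_three]
  rw [h 1 0, h 2 0, h 2 1]
  ring

lemma bf_prod (c : ℚ) (p q : Fin 3 → ℚ) (M : Matrix (Fin 3) (Fin 3) ℚ)
    (hM : ∀ j k, M j k = c * (p j * q k + q j * p k)) (x y : Fin 3 → ℚ) :
    bf M x y = c * (dt3 x p * dt3 y q + dt3 x q * dt3 y p) := by
  simp only [bf, Fin.sum_univ_three, hM, dt3]
  ring

lemma qv_expand {M : Matrix (Fin 3) (Fin 3) ℚ} (hM : M.IsSymm) (a b c h : Fin 3 → ℚ)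
    (p q r : ℚ) (hh : ∀ j, h j = p * a j + q * b j + r * c j) :
    qv h M = p ^ 2 * bf M a a + q ^ 2 * bf M b b + r ^ 2 * bf M c c + 2 * p * q * bf M a b +
      2 * p * r * bf M a c + 2 * q * r * bf M b c := by
  have h' : ∀ i j, M i j = M j i := fun i j => hM.apply j i
  simp only [qv, bf, Fin.sum_univ_three, hh]
  rw [h' 1 0, h' 2 0, h' 2 1]
  ring

/-- the Gram matrix -/
def Gr (f : Fin 3 → Fin 3 → ℚ) (M : Matrix (Fin 3) (Fin 3) ℚ) : Matrix (Fin 3) (Fin 3) ℚ :=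
  Matrix.of fun i j => bf M (f i) (f j)

lemma Gr_eq (f : Fin 3 → Fin 3 → ℚ) (M : Matrix (Fin 3) (Fin 3) ℚ) :
    Gr f M = Matrix.of f * M * (Matrix.of f).transpose := by
  ext i j
  simp only [Gr, Matrix.of_apply, Matrix.mul_apply, Matrix.transpose_apply, bf]
  rw [Finset.sum_comm]
  simp only [Finset.sum_mul]

lemma Gr_det (f : Fin 3 → Fin 3 → ℚ) (W : Finset ℤ) (M : ℤ → Matrix (Fin 3) (Fin 3) ℚ) (z : ℚ)
    (h : (∑ w ∈ W, z ^ w • M w).det = 0) : (∑ w ∈ W, z ^ w • Gr f (M w)).det = 0 := by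
  have h1 : ∑ w ∈ W, z ^ w • Gr f (M w) =
      Matrix.of f * (∑ w ∈ W, z ^ w • M w) * (Matrix.of f).transpose := by
    rw [Finset.mul_sum, Finset.sum_mul]
    refine Finset.sum_congr rfl fun w _ => ?_
    rw [Gr_eq, Matrix.mul_smul, Matrix.smul_mul]
  rw [h1, Matrix.det_mul, Matrix.det_mul, h, mul_zero, zero_mul]

/-- the four common points, in coordinates -/
noncomputable def dir (n1 n3 : ℚ) : Fin 4 → Fin 3 → ℂ :=
  ![![1, 0, (n3 : ℂ)], ![1, 0, -(n3 : ℂ)], ![0, 1, (n1 : ℂ)], ![0, 1, -(n1 : ℂ)]]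

lemma tyA (s n1 n3 m y r q : ℚ) (hs : s = 1 ∨ s = -1) (hr : r ≠ 0) (hm : m ≠ 0)
    (hq1 : q - n1 * r ≠ 0) (hq2 : q + n1 * r ≠ 0) (e : r * y + 2 * s * n3 * q * m = 0)
    (X1 X3 Xk : ℂ) (l : (s * n3 * r : ℚ) * X1 + (q : ℂ) * X3 + (r : ℂ) * Xk = 0)
    (hG : (m : ℂ) * Xk ^ 2 - (m * n1 ^ 2 : ℚ) * X3 ^ 2 + (y : ℂ) * (X1 * X3) -
      (m * n3 ^ 2 : ℚ) * X1 ^ 2 = 0) :
    ∃ (t : Fin 4) (c : ℂ), X1 = c * dir n1 n3 t 0 ∧ X3 = c * dir n1 n3 t 1 ∧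
      Xk = c * dir n1 n3 t 2 := by
  have hrC : (r : ℂ) ≠ 0 := by exact_mod_cast hr
  have eC : (r : ℂ) * y + 2 * s * n3 * q * m = 0 := by exact_mod_cast e
  have hsC : (s : ℂ) ^ 2 = 1 := by rcases hs with h | h <;> rw [h] <;> norm_num
  push_cast at l hG
  have h3 : X3 = 0 := by
    have h1 : ((m * ((q - n1 * r) * (q + n1 * r)) : ℚ) : ℂ) * X3 ^ 2 = 0 := by
      push_cast
      linear_combination (r : ℂ) ^ 2 * hG - (m : ℂ) * (r * Xk - s * n3 * r * X1 - q * X3) * l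
        - (r : ℂ) * X1 * X3 * eC - (m : ℂ) * n3 ^ 2 * r ^ 2 * X1 ^ 2 * hsC
    have h2 : ((m * ((q - n1 * r) * (q + n1 * r)) : ℚ) : ℂ) ≠ 0 := by
      exact_mod_cast mul_ne_zero hm (mul_ne_zero hq1 hq2)
    exact pow_eq_zero_iff (two_ne_zero) |>.mp ((mul_eq_zero.mp h1).resolve_left h2)
  have hk : Xk = -(s * n3 * X1) := by
    have h1 : (r : ℂ) * (Xk + s * n3 * X1) = 0 := by
      rw [h3] at l; linear_combination l
    have := (mul_eq_zero.mp h1).resolve_left hrC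
    linear_combination this
  rcases hs with h | h
  · refine ⟨1, X1, ?_, ?_, ?_⟩
    · simp [dir]
    · rw [h3]; simp [dir]
    · rw [hk, h]; simp [dir]; ring
  · refine ⟨0, X1, ?_, ?_, ?_⟩
    · simp [dir]
    · rw [h3]; simp [dir]
    · rw [hk, h]; simp [dir]; ring

lemma tyB (s n1 n3 m y r q : ℚ) (hs : s = 1 ∨ s = -1) (hr : r ≠ 0) (hm : m ≠ 0)
    (hq1 : q - n3 * r ≠ 0) (hq2 : q + n3 * r ≠ 0) (e : r * y + 2 * s * n1 * q * m = 0)
    (X1 X3 Xk : ℂ) (l : (q : ℂ) * X1 + (s * n1 * r : ℚ) * X3 + (r : ℂ) * Xk = 0)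
    (hG : (m : ℂ) * Xk ^ 2 - (m * n1 ^ 2 : ℚ) * X3 ^ 2 + (y : ℂ) * (X1 * X3) -
      (m * n3 ^ 2 : ℚ) * X1 ^ 2 = 0) :
    ∃ (t : Fin 4) (c : ℂ), X1 = c * dir n1 n3 t 0 ∧ X3 = c * dir n1 n3 t 1 ∧
      Xk = c * dir n1 n3 t 2 := by
  have hrC : (r : ℂ) ≠ 0 := by exact_mod_cast hr
  have eC : (r : ℂ) * y + 2 * s * n1 * q * m = 0 := by exact_mod_cast e
  have hsC : (s : ℂ) ^ 2 = 1 := by rcases hs with h | h <;> rw [h] <;> norm_num
  push_cast at l hG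
  have h3 : X1 = 0 := by
    have h1 : ((m * ((q - n3 * r) * (q + n3 * r)) : ℚ) : ℂ) * X1 ^ 2 = 0 := by
      push_cast
      linear_combination (r : ℂ) ^ 2 * hG - (m : ℂ) * (r * Xk - s * n1 * r * X3 - q * X1) * l
        - (r : ℂ) * X1 * X3 * eC - (m : ℂ) * n1 ^ 2 * r ^ 2 * X3 ^ 2 * hsC
    have h2 : ((m * ((q - n3 * r) * (q + n3 * r)) : ℚ) : ℂ) ≠ 0 := by
      exact_mod_cast mul_ne_zero hm (mul_ne_zero hq1 hq2)
    exact pow_eq_zero_iff (two_ne_zero) |>.mp ((mul_eq_zero.mp h1).resolve_left h2)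
  have hk : Xk = -(s * n1 * X3) := by
    have h1 : (r : ℂ) * (Xk + s * n1 * X3) = 0 := by
      rw [h3] at l; linear_combination l
    have := (mul_eq_zero.mp h1).resolve_left hrC
    linear_combination this
  rcases hs with h | h
  · refine ⟨3, X3, ?_, ?_, ?_⟩
    · rw [h3]; simp [dir]
    · simp [dir]
    · rw [hk, h]; simp [dir]; ring
  · refine ⟨2, X3, ?_, ?_, ?_⟩
    · rw [h3]; simp [dir]
    · simp [dir]
    · rw [hk, h]; simp [dir]; ring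

lemma tyC (s n1 n3 m y r : ℚ) (hs : s = 1 ∨ s = -1) (hr : r ≠ 0)
    (e : 2 * n1 * n3 * m + y ≠ 0)
    (X1 X3 Xk : ℂ) (l : (s * n3 * r : ℚ) * X1 + (s * n1 * r : ℚ) * X3 + (r : ℂ) * Xk = 0)
    (hG : (m : ℂ) * Xk ^ 2 - (m * n1 ^ 2 : ℚ) * X3 ^ 2 + (y : ℂ) * (X1 * X3) -
      (m * n3 ^ 2 : ℚ) * X1 ^ 2 = 0) :
    ∃ (t : Fin 4) (c : ℂ), X1 = c * dir n1 n3 t 0 ∧ X3 = c * dir n1 n3 t 1 ∧
      Xk = c * dir n1 n3 t 2 := by
  have hrC : (r : ℂ) ≠ 0 := by exact_mod_cast hr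
  have hsC : (s : ℂ) ^ 2 = 1 := by rcases hs with h | h <;> rw [h] <;> norm_num
  push_cast at l hG
  have hk : Xk = -(s * (n3 * X1 + n1 * X3)) := by
    have h1 : (r : ℂ) * (Xk + s * (n3 * X1 + n1 * X3)) = 0 := by linear_combination l
    have := (mul_eq_zero.mp h1).resolve_left hrC
    linear_combination this
  have h13 : X1 * X3 = 0 := by
    have h1 : ((2 * n1 * n3 * m + y : ℚ) : ℂ) * (X1 * X3) = 0 := by
      push_cast
      rw [hk] at hG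
      linear_combination hG - (m : ℂ) * (n3 * X1 + n1 * X3) ^ 2 * hsC
    have h2 : ((2 * n1 * n3 * m + y : ℚ) : ℂ) ≠ 0 := by exact_mod_cast e
    exact (mul_eq_zero.mp h1).resolve_left h2
  rcases mul_eq_zero.mp h13 with h3 | h3
  · rcases hs with h | h
    · refine ⟨3, X3, ?_, ?_, ?_⟩
      · rw [h3]; simp [dir]
      · simp [dir]
      · rw [hk, h, h3]; simp [dir]; ring
    · refine ⟨2, X3, ?_, ?_, ?_⟩
      · rw [h3]; simp [dir]
      · simp [dir]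
      · rw [hk, h, h3]; simp [dir]; ring
  · rcases hs with h | h
    · refine ⟨1, X1, ?_, ?_, ?_⟩
      · simp [dir]
      · rw [h3]; simp [dir]
      · rw [hk, h, h3]; simp [dir]; ring
    · refine ⟨0, X1, ?_, ?_, ?_⟩
      · simp [dir]
      · rw [h3]; simp [dir]
      · rw [hk, h, h3]; simp [dir]; ring

end Pool.Agent.Y328.Cnc
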