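import Mathlib
import Pool.Agent.Y328.Cnc.Geo

/-!
# Project Y734/I, job CON: the conic case
-/

set_option autoImplicit false

namespace Pool.Agent.Y328.Cnc

open Pool.Agent.Y734.I MvPolynomial

/-- a linear form -/
noncomputable def lf (l : Fin 3 → ℚ) : MvPolynomial (Fin 3) ℚ :=
  C (l 0) * X 0 + C (l 1) * X 1 + C (l 2) * X 2

lemma lf_hom (l : Fin 3 → ℚ) : (lf l).IsHomogeneous 1 :=
  ((isHomogeneous_C_mul_X _ _).add (isHomogeneous_C_mul_X _ _)).add (isHomogeneous_C_mul_X _ _)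

lemma lf_aeval (l : Fin 3 → ℚ) (x : Fin 3 → ℂ) : aeval x (lf l) = vc l x := by
  simp [lf, vc]

/-- the conic -/
noncomputable def GG (m y n1 n3 : ℚ) (w1 w3 k : Fin 3 → ℚ) : MvPolynomial (Fin 3) ℚ :=
  C m * lf k ^ 2 - C (m * n1 ^ 2) * lf w3 ^ 2 + C y * (lf w1 * lf w3) - C (m * n3 ^ 2) * lf w1 ^ 2

lemma GG_aeval (m y n1 n3 : ℚ) (w1 w3 k : Fin 3 → ℚ) (x : Fin 3 → ℂ) :
    aeval x (GG m y n1 n3 w1 w3 k) = (m : ℂ) * vc k x ^ 2 - ((m * n1 ^ 2 : ℚ) : ℂ) * vc w3 x ^ 2 +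
      (y : ℂ) * (vc w1 x * vc w3 x) - ((m * n3 ^ 2 : ℚ) : ℂ) * vc w1 x ^ 2 := by
  simp only [GG, map_sub, map_add, map_mul, map_pow, lf_aeval, aeval_C]
  simp

lemma GG_hom (m y n1 n3 : ℚ) (w1 w3 k : Fin 3 → ℚ) :
    (GG m y n1 n3 w1 w3 k).IsHomogeneous 2 := by
  have h2 : ∀ l, (lf l ^ 2).IsHomogeneous 2 := fun l => (lf_hom l).pow 2
  have h3 : (lf w1 * lf w3).IsHomogeneous 2 := (lf_hom w1).mul (lf_hom w3)
  exact (((h2 k).C_mul m).sub ((h2 w3).C_mul _)).add (h3.C_mul y) |>.sub ((h2 w1).C_mul _)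

lemma basis {w1 w3 k : Fin 3 → ℚ} (hΔ : dt3 w1 (crs w3 k) ≠ 0) (h : Fin 3 → ℚ) :
    ∃ p q r : ℚ, ∀ j, h j = p * w1 j + q * w3 j + r * k j := by
  refine ⟨dt3 h (crs w3 k) / dt3 w1 (crs w3 k), dt3 h (crs k w1) / dt3 w1 (crs w3 k),
    dt3 h (crs w1 w3) / dt3 w1 (crs w3 k), fun j => ?_⟩
  have := expandQ w1 w3 k h j
  field_simp
  linear_combination this

lemma dt3_lin {w1 w3 k h : Fin 3 → ℚ} {p q r : ℚ} (hh : ∀ j, h j = p * w1 j + q * w3 j + r * k j)
    (x : Fin 3 → ℚ) : dt3 h x = p * dt3 w1 x + q * dt3 w3 x + r * dt3 k x := by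
  simp only [dt3, hh]; ring

lemma vc_lin {w1 w3 k h : Fin 3 → ℚ} {p q r : ℚ} (hh : ∀ j, h j = p * w1 j + q * w3 j + r * k j)
    (x : Fin 3 → ℂ) : vc h x = p * vc w1 x + q * vc w3 x + r * vc k x := by
  simp only [vc, hh]; push_cast; ring

lemma vc_dt3 (l x : Fin 3 → ℚ) : vc l (fun j => (x j : ℂ)) = (dt3 l x : ℂ) := by
  simp only [vc, dt3]; push_cast; ring

lemma pt_bf {S : Matrix (Fin 3) (Fin 3) ℚ} {x x' : Fin 3 → ℂ}
    (h : ∀ j k, ((S j k : ℚ) : ℂ) = x j * x' k + x' j * x k) (f g : Fin 3 → ℚ) :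
    ((bf S f g : ℚ) : ℂ) = vc f x * vc g x' + vc f x' * vc g x := by
  simp only [bf, vc, Fin.sum_univ_three]
  push_cast
  simp only [h]
  ring

lemma bf_add (A B : Matrix (Fin 3) (Fin 3) ℚ) (f g : Fin 3 → ℚ) :
    bf (A + B) f g = bf A f g + bf B f g := by
  simp only [bf, Fin.sum_univ_three, Matrix.add_apply]; ring

theorem con (_hfac : FacStmt) (hdet : DetStmt) : ConStmt := by
  intro H κ α M hF hT c₁ c₃ hM1 hM3
  have DD : ∀ i j k, i ≠ j → i ≠ k → j ≠ k → dt3 (H i) (crs (H j) (H k)) ≠ 0 :=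
    fun i j k a b c => dt3_ne (hF.gp i j k a b c)
  -- the four points
  obtain ⟨a, ha⟩ : ∃ a, a = crs (H 0) (H 2) := ⟨_, rfl⟩
  obtain ⟨b, hb⟩ : ∃ b, b = crs (H 2) (H 4) := ⟨_, rfl⟩
  obtain ⟨c, hc⟩ : ∃ c, c = crs (H 1) (H 3) := ⟨_, rfl⟩
  obtain ⟨d, hd⟩ : ∃ d, d = crs (H 3) (H 5) := ⟨_, rfl⟩
  rw [← hb, ← hd] at hM1
  rw [← ha, ← hc] at hM3
  have H0a : dt3 (H 0) a = 0 := by rw [ha]; exact dt3_left _ _
  have H2a : dt3 (H 2) a = 0 := by rw [ha]; exact dt3_right _ _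
  have H2b : dt3 (H 2) b = 0 := by rw [hb]; exact dt3_left _ _
  have H4b : dt3 (H 4) b = 0 := by rw [hb]; exact dt3_right _ _
  have H1c : dt3 (H 1) c = 0 := by rw [hc]; exact dt3_left _ _
  have H3c : dt3 (H 3) c = 0 := by rw [hc]; exact dt3_right _ _
  have H3d : dt3 (H 3) d = 0 := by rw [hd]; exact dt3_left _ _
  have H5d : dt3 (H 5) d = 0 := by rw [hd]; exact dt3_right _ _
  have Hna : ∀ i, i ≠ 0 → i ≠ 2 → dt3 (H i) a ≠ 0 := fun i h0 h2 => by
    rw [ha]; exact DD i 0 2 h0 h2 (by decide)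
  have Hnb : ∀ i, i ≠ 2 → i ≠ 4 → dt3 (H i) b ≠ 0 := fun i h0 h2 => by
    rw [hb]; exact DD i 2 4 h0 h2 (by decide)
  have Hnc : ∀ i, i ≠ 1 → i ≠ 3 → dt3 (H i) c ≠ 0 := fun i h0 h2 => by
    rw [hc]; exact DD i 1 3 h0 h2 (by decide)
  have Hnd : ∀ i, i ≠ 3 → i ≠ 5 → dt3 (H i) d ≠ 0 := fun i h0 h2 => by
    rw [hd]; exact DD i 3 5 h0 h2 (by decide)
  -- the two lines
  obtain ⟨w1, hw1⟩ : ∃ w, w = crs b d := ⟨_, rfl⟩
  obtain ⟨w3, hw3⟩ : ∃ w, w = crs a c := ⟨_, rfl⟩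
  have w1b : dt3 w1 b = 0 := by rw [hw1]; exact cl _ _
  have w1d : dt3 w1 d = 0 := by rw [hw1]; exact cr _ _
  have w3a : dt3 w3 a = 0 := by rw [hw3]; exact cl _ _
  have w3c : dt3 w3 c = 0 := by rw [hw3]; exact cr _ _
  have w1a : dt3 w1 a ≠ 0 := by
    rw [hw1, hb, ha, idA]
    exact mul_ne_zero (DD 0 2 4 (by decide) (by decide) (by decide))
      (Hnd 2 (by decide) (by decide))
  have w1c : dt3 w1 c ≠ 0 := by
    rw [hw1, hd, hc, idB]
    exact neg_ne_zero.mpr (mul_ne_zero (DD 1 3 5 (by decide) (by decide) (by decide))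
      (Hnb 3 (by decide) (by decide)))
  have w3b : dt3 w3 b ≠ 0 := by
    rw [hw3, ha, hb, idD]
    exact neg_ne_zero.mpr (mul_ne_zero (DD 0 2 4 (by decide) (by decide) (by decide))
      (Hnc 2 (by decide) (by decide)))
  have w3d : dt3 w3 d ≠ 0 := by
    rw [hw3, hc, hd, idE]
    exact mul_ne_zero (DD 1 3 5 (by decide) (by decide) (by decide))
      (Hna 3 (by decide) (by decide))
  have hO : dt3 (H 2) (crs w1 w3) ≠ 0 := by
    have h1 := idC a b c d
    rw [← hw1, ← hw3] at h1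
    have h2 : ∀ x, dt3 (crs a b) x = dt3 (H 0) (crs (H 2) (H 4)) * dt3 (H 2) x := fun x => by
      rw [ha, hb]; exact idF _ _ _ _
    rw [h2, h2] at h1
    have h3 := DD 0 2 4 (by decide) (by decide) (by decide)
    intro h4
    rw [h4, mul_zero] at h1
    have h5 : dt3 (H 0) (crs (H 2) (H 4)) * dt3 (H 2) c * dt3 w1 a ≠ 0 :=
      mul_ne_zero (mul_ne_zero h3 (Hnc 2 (by decide) (by decide))) w1a
    exact h5 (by linarith)
  obtain ⟨n1, hn1⟩ : ∃ n, n = - dt3 (H 2) d / (2 * dt3 w3 d) := ⟨_, rfl⟩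
  obtain ⟨n3, hn3⟩ : ∃ n, n = - dt3 (H 2) c / (2 * dt3 w1 c) := ⟨_, rfl⟩
  have n1e : 2 * n1 * dt3 w3 d = - dt3 (H 2) d := by rw [hn1]; field_simp
  have n3e : 2 * n3 * dt3 w1 c = - dt3 (H 2) c := by rw [hn3]; field_simp
  have n10 : n1 ≠ 0 := by
    intro h
    rw [h] at n1e
    exact Hnd 2 (by decide) (by decide) (by linarith)
  have n30 : n3 ≠ 0 := by
    intro h
    rw [h] at n3e
    exact Hnc 2 (by decide) (by decide) (by linarith)
  obtain ⟨k, hk⟩ : ∃ k : Fin 3 → ℚ, k = fun j => H 2 j + n3 * w1 j + n1 * w3 j := ⟨_, rfl⟩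
  have kx : ∀ x, dt3 k x = dt3 (H 2) x + n3 * dt3 w1 x + n1 * dt3 w3 x := fun x => by
    rw [hk]; simp only [dt3]; ring
  have ka : dt3 k a = n3 * dt3 w1 a := by rw [kx, H2a, w3a]; ring
  have kb : dt3 k b = n1 * dt3 w3 b := by rw [kx, H2b, w1b]; ring
  have kc : dt3 k c = - (n3 * dt3 w1 c) := by rw [kx, w3c]; linear_combination n3e
  have kd : dt3 k d = - (n1 * dt3 w3 d) := by rw [kx, w1d]; linear_combination n1e
  have kO : dt3 k (crs w1 w3) ≠ 0 := by
    rw [kx]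
    have e1 : dt3 w1 (crs w1 w3) = 0 := dt3_left _ _
    have e2 : dt3 w3 (crs w1 w3) = 0 := dt3_right _ _
    rw [e1, e2]; simpa using hO
  have hΔ : dt3 w1 (crs w3 k) ≠ 0 := by
    have : dt3 w1 (crs w3 k) = dt3 k (crs w1 w3) := by
      simp only [dt3, crs0, crs1, crs2]; ring
    rw [this]; exact kO
  -- the exponents
  have h12 : α 0 < α 2 := by have := hT.h01; have := hT.h12; omega
  have h23 : α 2 < α 4 := by have := hT.h23; have := hT.h34; omega
  have hW : (Finset.univ : Finset (Fin 6)).image α = {α 0, α 2, α 4} := by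
    ext w
    simp only [Finset.mem_image, Finset.mem_univ, true_and, Finset.mem_insert,
      Finset.mem_singleton]
    constructor
    · rintro ⟨i, rfl⟩
      fin_cases i
      · exact Or.inl rfl
      · exact Or.inl hT.h01.symm
      · exact Or.inr (Or.inl rfl)
      · exact Or.inr (Or.inl hT.h23.symm)
      · exact Or.inr (Or.inr rfl)
      · exact Or.inr (Or.inr hT.h45.symm)
    · rintro (rfl | rfl | rfl)
      · exact ⟨0, rfl⟩
      · exact ⟨2, rfl⟩
      · exact ⟨4, rfl⟩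
  have hsumM : ∑ w ∈ (Finset.univ : Finset (Fin 6)).image α, M w = M (α 0) + (M (α 2) + M (α 4)) := by
    rw [hW, Finset.sum_insert (by simp; omega), Finset.sum_insert (by simp; omega),
      Finset.sum_singleton]
  have e1 := bf_prod c₁ b d (M (α 0)) hM1
  have e3 := bf_prod c₃ a c (M (α 4)) hM3
  have s2 := bf_symm (hF.symm (α 2))
  have hc1 : c₁ ≠ 0 := by
    intro h
    have h1 := hF.val (α 0) 0
    rw [if_pos rfl, qv_bf, e1, h, zero_mul] at h1
    exact hF.κ0 0 h1.symm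
  have hc3 : c₃ ≠ 0 := by
    intro h
    have h1 := hF.val (α 4) 4
    rw [if_pos rfl, qv_bf, e3, h, zero_mul] at h1
    exact hF.κ0 4 h1.symm
  obtain ⟨m1, hm1⟩ : ∃ m1, m1 = c₁ * (dt3 w3 b * dt3 w3 d) := ⟨_, rfl⟩
  obtain ⟨m3, hm3⟩ : ∃ m3, m3 = c₃ * (dt3 w1 a * dt3 w1 c) := ⟨_, rfl⟩
  have m10 : m1 ≠ 0 := by rw [hm1]; exact mul_ne_zero hc1 (mul_ne_zero w3b w3d)
  have m30 : m3 ≠ 0 := by rw [hm3]; exact mul_ne_zero hc3 (mul_ne_zero w1a w1c)
  obtain ⟨m, hm⟩ : ∃ m, m = bf (M (α 2)) w1 w3 := ⟨_, rfl⟩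
  obtain ⟨u, hu⟩ : ∃ u, u = bf (M (α 2)) w1 k := ⟨_, rfl⟩
  obtain ⟨v, hv⟩ : ∃ v, v = bf (M (α 2)) w3 k := ⟨_, rfl⟩
  obtain ⟨y, hy⟩ : ∃ y, y = bf (M (α 2)) k k := ⟨_, rfl⟩
  -- the entries of the Gram matrices
  have g1_00 : bf (M (α 0)) w1 w1 = 0 := by rw [e1, w1b]; ring
  have g1_01 : bf (M (α 0)) w1 w3 = 0 := by rw [e1, w1b, w1d]; ring
  have g1_02 : bf (M (α 0)) w1 k = 0 := by rw [e1, w1b, w1d]; ring
  have g1_11 : bf (M (α 0)) w3 w3 = 2 * m1 := by rw [e1, hm1]; ring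
  have g1_12 : bf (M (α 0)) w3 k = 0 := by rw [e1, kb, kd]; ring
  have g1_22 : bf (M (α 0)) k k = -2 * n1 ^ 2 * m1 := by rw [e1, kb, kd, hm1]; ring
  have g3_00 : bf (M (α 4)) w1 w1 = 2 * m3 := by rw [e3, hm3]; ring
  have g3_01 : bf (M (α 4)) w1 w3 = 0 := by rw [e3, w3a, w3c]; ring
  have g3_02 : bf (M (α 4)) w1 k = 0 := by rw [e3, ka, kc]; ring
  have g3_11 : bf (M (α 4)) w3 w3 = 0 := by rw [e3, w3a, w3c]; ring
  have g3_12 : bf (M (α 4)) w3 k = 0 := by rw [e3, w3a, w3c]; ring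
  have g3_22 : bf (M (α 4)) k k = -2 * n3 ^ 2 * m3 := by rw [e3, ka, kc, hm3]; ring
  have s1 := bf_symm (hF.symm (α 0))
  have s3 := bf_symm (hF.symm (α 4))
  have hG1 : Gr ![w1, w3, k] (M (α 0)) =
      !![0, 0, 0; 0, 2 * m1, 0; 0, 0, -2 * n1 ^ 2 * m1] := by
    ext i j
    fin_cases i <;> fin_cases j
    · exact g1_00
    · exact g1_01
    · exact g1_02
    · exact (s1 w3 w1).trans g1_01
    · exact g1_11
    · exact g1_12
    · exact (s1 k w1).trans g1_02
    · exact (s1 k w3).trans g1_12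
    · exact g1_22
  have hG3 : Gr ![w1, w3, k] (M (α 4)) =
      !![2 * m3, 0, 0; 0, 0, 0; 0, 0, -2 * n3 ^ 2 * m3] := by
    ext i j
    fin_cases i <;> fin_cases j
    · exact g3_00
    · exact g3_01
    · exact g3_02
    · exact (s3 w3 w1).trans g3_01
    · exact g3_11
    · exact g3_12
    · exact (s3 k w1).trans g3_02
    · exact (s3 k w3).trans g3_12
    · exact g3_22
  have hG2 : Gr ![w1, w3, k] (M (α 2)) =
      !![bf (M (α 2)) w1 w1, m, u; m, bf (M (α 2)) w3 w3, v; u, v, y] := by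
    ext i j
    fin_cases i <;> fin_cases j
    · rfl
    · exact hm.symm
    · exact hu.symm
    · exact (s2 w3 w1).trans hm.symm
    · rfl
    · exact hv.symm
    · exact (s2 k w1).trans hu.symm
    · exact (s2 k w3).trans hv.symm
    · exact hy.symm
  obtain ⟨g2_00, g2_11, eu, ev2, ey⟩ := coef hdet (α 0) (α 2) (α 4) h12 h23
    (fun w => Gr ![w1, w3, k] (M w)) (fun z hz => by
      have := hF.det z hz
      rw [hW] at this
      exact Gr_det _ _ M z this) m1 m3 n1 n3 _ _ m u v y m10 m30 n10 n30 hG1 hG2 hG3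
  -- the lines in the coordinates
  choose p q r hpqr using fun i => basis hΔ (H i)
  have hdt : ∀ i x, dt3 (H i) x = p i * dt3 w1 x + q i * dt3 w3 x + r i * dt3 k x :=
    fun i x => dt3_lin (hpqr i) x
  have hA : ∀ i, dt3 (H i) a = (p i + n3 * r i) * dt3 w1 a := fun i => by
    rw [hdt, w3a, ka]; ring
  have hB : ∀ i, dt3 (H i) b = (q i + n1 * r i) * dt3 w3 b := fun i => by
    rw [hdt, w1b, kb]; ring
  have hC : ∀ i, dt3 (H i) c = (p i - n3 * r i) * dt3 w1 c := fun i => by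
    rw [hdt, w3c, kc]; ring
  have hD : ∀ i, dt3 (H i) d = (q i - n1 * r i) * dt3 w3 d := fun i => by
    rw [hdt, w1d, kd]; ring
  have pA : ∀ i, dt3 (H i) a = 0 → p i = -1 * n3 * r i := fun i h => by
    rw [hA] at h
    have := (mul_eq_zero.mp h).resolve_right w1a
    linarith
  have pC : ∀ i, dt3 (H i) c = 0 → p i = 1 * n3 * r i := fun i h => by
    rw [hC] at h
    have := (mul_eq_zero.mp h).resolve_right w1c
    linarith
  have pB : ∀ i, dt3 (H i) b = 0 → q i = -1 * n1 * r i := fun i h => by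
    rw [hB] at h
    have := (mul_eq_zero.mp h).resolve_right w3b
    linarith
  have pD : ∀ i, dt3 (H i) d = 0 → q i = 1 * n1 * r i := fun i h => by
    rw [hD] at h
    have := (mul_eq_zero.mp h).resolve_right w3d
    linarith
  have nA : ∀ i, dt3 (H i) a ≠ 0 → p i + n3 * r i ≠ 0 := fun i h h0 => h (by rw [hA, h0, zero_mul])
  have nB : ∀ i, dt3 (H i) b ≠ 0 → q i + n1 * r i ≠ 0 := fun i h h0 => h (by rw [hB, h0, zero_mul])
  have nC : ∀ i, dt3 (H i) c ≠ 0 → p i - n3 * r i ≠ 0 := fun i h h0 => h (by rw [hC, h0, zero_mul])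
  have nD : ∀ i, dt3 (H i) d ≠ 0 → q i - n1 * r i ≠ 0 := fun i h h0 => h (by rw [hD, h0, zero_mul])
  have r0 : ∀ i, r i ≠ 0 := by
    intro i hi
    have key : p i = 0 ∨ q i = 0 := by
      fin_cases i
      · left; have := pA 0 H0a; simp only [Fin.zero_eta] at hi ⊢; rw [this, hi]; ring
      · left; have := pC 1 H1c; simp only [Fin.mk_one] at hi ⊢; rw [this, hi]; ring
      · left; have := pA 2 H2a; simp only [Fin.reduceFinMk] at hi ⊢; rw [this, hi]; ring
      · left; have := pC 3 H3c; simp only [Fin.reduceFinMk] at hi ⊢; rw [this, hi]; ring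
      · right; have := pB 4 H4b; simp only [Fin.reduceFinMk] at hi ⊢; rw [this, hi]; ring
      · right; have := pD 5 H5d; simp only [Fin.reduceFinMk] at hi ⊢; rw [this, hi]; ring
    rcases key with h | h
    · -- `H i` contains `a` and `c`
      have ea : dt3 (H i) a = 0 := by rw [hA, h, hi]; ring
      have ec : dt3 (H i) c = 0 := by rw [hC, h, hi]; ring
      have i1 : i = 0 ∨ i = 2 := by
        by_contra hcon
        push Not at hcon
        exact Hna i hcon.1 hcon.2 ea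
      have i2 : i = 1 ∨ i = 3 := by
        by_contra hcon
        push Not at hcon
        exact Hnc i hcon.1 hcon.2 ec
      rcases i1 with rfl | rfl <;> rcases i2 with h | h <;> exact absurd h (by decide)
    · have eb : dt3 (H i) b = 0 := by rw [hB, h, hi]; ring
      have ed : dt3 (H i) d = 0 := by rw [hD, h, hi]; ring
      have i1 : i = 2 ∨ i = 4 := by
        by_contra hcon
        push Not at hcon
        exact Hnb i hcon.1 hcon.2 eb
      have i2 : i = 3 ∨ i = 5 := by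
        by_contra hcon
        push Not at hcon
        exact Hnd i hcon.1 hcon.2 ed
      rcases i1 with rfl | rfl <;> rcases i2 with h | h <;> exact absurd h (by decide)
  have hqv : ∀ i, qv (H i) (M (α 2)) = r i ^ 2 * y + 2 * p i * q i * m + 2 * p i * r i * u +
      2 * q i * r i * v := fun i => by
    rw [qv_expand (hF.symm (α 2)) w1 w3 k (H i) (p i) (q i) (r i) (hpqr i), g2_00, g2_11, ← hm,
      ← hu, ← hv, ← hy]
    ring
  have hv0 := hF.val (α 2) 0
  rw [if_neg (by omega)] at hv0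
  have hv1 := hF.val (α 2) 1
  rw [if_neg (by have := hT.h01; omega)] at hv1
  have hv2 := hF.val (α 2) 2
  rw [if_pos rfl] at hv2
  have hv3 := hF.val (α 2) 3
  rw [if_pos hT.h23.symm] at hv3
  have hv4 := hF.val (α 2) 4
  rw [if_neg (by omega)] at hv4
  have hv5 := hF.val (α 2) 5
  rw [if_neg (by have := hT.h45; omega)] at hv5
  rw [hqv] at hv0 hv1 hv2 hv3 hv4 hv5
  -- the discriminant
  have hT0 : m ^ 2 - 4 * m1 * m3 = 0 := by
    refine tzero m1 m3 n1 n3 m u v y (q 0 / r 0) m10 m30 n10 n30 eu ev2 ey ?_ ?_ ?_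
    · have h1 := r0 0
      have h2 := pA 0 H0a
      have h3 : r 0 * (r 0 * y + 2 * (-1 * n3) * q 0 * m + 2 * (-1 * n3) * r 0 * u +
          2 * q 0 * v) = 0 := by
        rw [h2] at hv0
        linear_combination hv0
      have h4 := (mul_eq_zero.mp h3).resolve_left h1
      field_simp
      linear_combination h4
    · intro h
      have h1 := nD 0 (Hnd 0 (by decide) (by decide))
      rw [div_eq_iff (r0 0)] at h
      exact h1 (by linarith)
    · intro h
      have h1 := nB 0 (Hnb 0 (by decide) (by decide))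
      rw [div_eq_iff (r0 0)] at h
      exact h1 (by linarith)
  have u0 : u = 0 := by
    rw [hT0, mul_zero] at eu
    exact pow_eq_zero_iff (two_ne_zero) |>.mp eu
  have v0 : v = 0 := by
    rw [hT0, mul_zero] at ev2
    exact pow_eq_zero_iff (two_ne_zero) |>.mp ev2
  have m0 : m ≠ 0 := by
    intro h
    rw [h] at hT0
    exact mul_ne_zero (mul_ne_zero four_ne_zero m10) m30 (by linarith)
  rw [u0, v0] at hv0 hv1 hv2 hv3 hv4 hv5
  -- the conic
  refine ⟨GG m y n1 n3 w1 w3 k, ⟨⟨2, Or.inr rfl, GG_hom _ _ _ _ _ _ _⟩, ?_, ?_⟩, ?_⟩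
  · intro h
    have h1 := GG_aeval m y n1 n3 w1 w3 k (fun j => ((crs w1 w3 j : ℚ) : ℂ))
    rw [h, map_zero, vc_dt3, vc_dt3, vc_dt3, dt3_left w1 w3, dt3_right w1 w3] at h1
    have h2 : ((m * dt3 k (crs w1 w3) ^ 2 : ℚ) : ℂ) = 0 := by
      push_cast
      push_cast at h1
      linear_combination -h1
    have h3 : m * dt3 k (crs w1 w3) ^ 2 = 0 := by exact_mod_cast h2
    exact mul_ne_zero m0 (pow_ne_zero 2 kO) h3
  · intro P hP hPG hPl
    have hzero : ∀ x : Fin 3 → ℂ, vc w1 x = 0 → vc w3 x = 0 → vc k x = 0 → x = 0 := by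
      intro x h1 h3 h2
      funext j
      have h4 := expandC w1 w3 k x j
      rw [h1, h2, h3, mul_zero, mul_zero, mul_zero, add_zero, add_zero] at h4
      exact (mul_eq_zero.mp h4).resolve_left (by exact_mod_cast hΔ)
    have hty : ∀ s, ∃ (t : Fin 4) (c : ℂ), vc w1 (P s) = c * dir n1 n3 t 0 ∧
        vc w3 (P s) = c * dir n1 n3 t 1 ∧ vc k (P s) = c * dir n1 n3 t 2 := by
      intro s
      have hg := hPG s
      rw [GG_aeval] at hg
      obtain ⟨i, hi⟩ := hPl s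
      rw [ev_eq, vc_lin (hpqr i)] at hi
      fin_cases i
      · simp only [Fin.zero_eta] at hi
        rw [pA 0 H0a] at hi hv0
        refine tyA (-1) n1 n3 m y (r 0) (q 0) (Or.inr rfl) (r0 0) m0
          (nD 0 (Hnd 0 (by decide) (by decide))) (nB 0 (Hnb 0 (by decide) (by decide))) ?_
          _ _ _ hi hg
        have h3 : r 0 * (r 0 * y + 2 * (-1) * n3 * q 0 * m) = 0 := by linear_combination hv0
        exact (mul_eq_zero.mp h3).resolve_left (r0 0)
      · simp only [Fin.mk_one] at hi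
        rw [pC 1 H1c] at hi hv1
        refine tyA 1 n1 n3 m y (r 1) (q 1) (Or.inl rfl) (r0 1) m0
          (nD 1 (Hnd 1 (by decide) (by decide))) (nB 1 (Hnb 1 (by decide) (by decide))) ?_
          _ _ _ hi hg
        have h3 : r 1 * (r 1 * y + 2 * 1 * n3 * q 1 * m) = 0 := by linear_combination hv1
        exact (mul_eq_zero.mp h3).resolve_left (r0 1)
      · simp only [Fin.reduceFinMk] at hi
        rw [pA 2 H2a, pB 2 H2b] at hi hv2
        refine tyC (-1) n1 n3 m y (r 2) (Or.inr rfl) (r0 2) ?_ _ _ _ hi hg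
        intro h
        exact hF.κ0 2 (by rw [← hv2]; linear_combination (r 2) ^ 2 * h)
      · simp only [Fin.reduceFinMk] at hi
        rw [pC 3 H3c, pD 3 H3d] at hi hv3
        refine tyC 1 n1 n3 m y (r 3) (Or.inl rfl) (r0 3) ?_ _ _ _ hi hg
        intro h
        exact hF.κ0 3 (by rw [← hv3]; linear_combination (r 3) ^ 2 * h)
      · simp only [Fin.reduceFinMk] at hi
        rw [pB 4 H4b] at hi hv4
        refine tyB (-1) n1 n3 m y (r 4) (p 4) (Or.inr rfl) (r0 4) m0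
          (nC 4 (Hnc 4 (by decide) (by decide))) (nA 4 (Hna 4 (by decide) (by decide))) ?_
          _ _ _ hi hg
        have h3 : r 4 * (r 4 * y + 2 * (-1) * n1 * p 4 * m) = 0 := by linear_combination hv4
        exact (mul_eq_zero.mp h3).resolve_left (r0 4)
      · simp only [Fin.reduceFinMk] at hi
        rw [pD 5 H5d] at hi hv5
        refine tyB 1 n1 n3 m y (r 5) (p 5) (Or.inl rfl) (r0 5) m0
          (nC 5 (Hnc 5 (by decide) (by decide))) (nA 5 (Hna 5 (by decide) (by decide))) ?_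
          _ _ _ hi hg
        have h3 : r 5 * (r 5 * y + 2 * 1 * n1 * p 5 * m) = 0 := by linear_combination hv5
        exact (mul_eq_zero.mp h3).resolve_left (r0 5)
    choose t cf h1 h3 hk' using hty
    obtain ⟨s, s', hne, hts⟩ := Fintype.exists_ne_map_eq_of_card_lt t (by simp)
    have hcf : ∀ s, cf s ≠ 0 := by
      intro s h
      refine hP s (hzero _ ?_ ?_ ?_)
      · rw [h1, h, zero_mul]
      · rw [h3, h, zero_mul]
      · rw [hk', h, zero_mul]
    refine ⟨s, s', hne, cf s / cf s', ?_⟩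
    have hc' := hcf s'
    have q1 : vc w1 (P s) = cf s / cf s' * vc w1 (P s') := by
      rw [h1, h1, hts]; field_simp
    have q3 : vc w3 (P s) = cf s / cf s' * vc w3 (P s') := by
      rw [h3, h3, hts]; field_simp
    have qk : vc k (P s) = cf s / cf s' * vc k (P s') := by
      rw [hk', hk', hts]; field_simp
    funext j
    have x1 := expandC w1 w3 k (P s) j
    have x2 := expandC w1 w3 k (P s') j
    have hΔC : ((dt3 w1 (crs w3 k) : ℚ) : ℂ) ≠ 0 := by exact_mod_cast hΔ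
    refine mul_left_cancel₀ hΔC ?_
    rw [Pi.smul_apply, smul_eq_mul, x1, q1, q3, qk]
    linear_combination -(cf s / cf s') * x2
  · rintro x ⟨-, x', -, hx⟩
    rw [hsumM] at hx
    have hb := pt_bf hx
    have hS : ∀ f g, bf (M (α 0) + (M (α 2) + M (α 4))) f g =
        bf (M (α 0)) f g + (bf (M (α 2)) f g + bf (M (α 4)) f g) := fun f g => by
      rw [bf_add, bf_add]
    have b11 := hb w1 w1
    have b33 := hb w3 w3
    have b13 := hb w1 w3
    have b1k := hb w1 k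
    have bkk := hb k k
    rw [hS] at b11 b33 b13 b1k bkk
    rw [g1_00, g2_00, g3_00] at b11
    rw [g1_11, g2_11, g3_11] at b33
    rw [g1_01, ← hm, g3_01] at b13
    rw [g1_02, ← hu, g3_02, u0] at b1k
    rw [g1_22, ← hy, g3_22] at bkk
    rw [GG_aeval]
    push_cast at b11 b33 b13 b1k bkk ⊢
    refine onG m1 m3 n1 n3 m y _ _ _ (vc w1 x') (vc w3 x') (vc k x') (by exact_mod_cast m30)
      ?_ ?_ ?_ ?_ ?_ ?_
    · have : ((m ^ 2 - 4 * m1 * m3 : ℚ) : ℂ) = 0 := by rw [hT0]; simp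
      push_cast at this
      linear_combination this
    · linear_combination -(1 / 2) * b11
    · linear_combination -(1 / 2) * b33
    · linear_combination -b13
    · linear_combination -b1k
    · linear_combination -bkk

end Pool.Agent.Y328.Cnc
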